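import Pool.Agent.Y347.AG.Final

set_option autoImplicit false

/-!
# Variational sets from the automorphism method over finite abelian groups

The largest variational sets of permutation cubes of the form `∑ φ_i (x_i)`, where the `φ_i` are
endomorphisms of a finite abelian group `G`. Write `G` as a product of homocyclic groups
`(Z/p^e)^r` with different prime powers `p^e`. Then only the elementary abelian groups of the
orders `p^r` matter, and the least `q` of these orders decides in the stated cases.
-/

namespace Pool.Agent.Results.MP_c7a479_co.AbelianGroupSets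

open Pool.Agent.Y347.VL Pool.Agent.Y347.AG

/-- **The automorphism method in all dimensions.** `GSizes G m n` is the set of all `k` for which
there is a variational set of `k` cubes of dimension `m` and order `n = |G|` that are homomorphic
over `G`. (0) every finite abelian group is a product of homocyclic groups as in `Decomp`;
(1) the reduction to elementary abelian groups; (2) a lower bound in all dimensions; (3) it is the
exact value for `m = 2`, `m = 3`, `m ≥ q - 1`, for `q` prime, and for `m = q - 2` if `q` is even. -/
theorem result :
    (∀ (G : Type) [AddCommGroup G] [Finite G],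
      ∃ (J : Type) (_ : Fintype J) (p e r : J → ℕ), Decomp G p e r) ∧
    ∀ (G : Type) [AddCommGroup G] (J : Type) [Fintype J] (p e r : J → ℕ), Decomp G p e r →
      (∀ m k : ℕ, k ∈ GSizes G m (Nat.card G) ↔
        ∀ c, k ∈ GSizes (Fin (r c) → ZMod (p c)) m (p c ^ r c)) ∧
      ∀ m q : ℕ, 2 ≤ m → IsLeast (Set.range fun c => p c ^ r c) q →
        value m q ∈ GSizes G m (Nat.card G) ∧
        (m = 2 ∨ m = 3 ∨ q ≤ m + 1 ∨ q.Prime ∨ (q % 2 = 0 ∧ q ≤ m + 2) →
          IsGreatest (GSizes G m (Nat.card G)) (value m q)) :=
  ⟨fun G _ _ => exists_decomp G, fun _ _ _ _ _ _ _ h => ⟨h.iff, fun _ _ hm hq =>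
    ⟨h.mem hm hq, fun hc => h.isGreatest hm hq hc⟩⟩⟩

end Pool.Agent.Results.MP_c7a479_co.AbelianGroupSets
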