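import Pool.Agent.Y347.VL.ZM

set_option autoImplicit false

/-!
# Variational sets of linear cubes over finite commutative rings

The largest size of a variational set of linear permutation cubes over a finite commutative ring
`R` depends only on the dimension and on the least order `q` of a residue field of `R`. It is
determined for all dimensions if `q` is a prime (in particular for all rings `ZMod n`), and for
other `q` in a large range of dimensions.
-/

namespace Pool.Agent.Results.MP_c7a479_co.LinearSets

open Pool.Agent.Y347.VL

/-- **Linear variational sets.** `Sizes R m n` is the set of all `k` for which there is a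
variational set of `k` cubes of dimension `m` and order `n = |R|` that are linear over `R`.
(1) reduction to the residue fields; (2) the largest size, `q` being the least order of a residue
field; (3) all dimensions are covered if `q` is a prime; (4) the rings `ZMod n`. -/
theorem result :
    (∀ (R : Type) [CommRing R] [Finite R] (m k : ℕ),
      k ∈ Sizes R m (Nat.card R) ↔
        ∀ M : Ideal R, M.IsMaximal → k ∈ Sizes (R ⧸ M) m (Nat.card (R ⧸ M))) ∧
    (∀ (R : Type) [CommRing R] [Finite R] (m q : ℕ), 2 ≤ m →
      IsLeast (ResidueOrders R) q → Covered m q →
        IsGreatest (Sizes R m (Nat.card R)) (value m q)) ∧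
    (∀ m q : ℕ, 2 ≤ m → q.Prime → Covered m q) ∧
    (∀ m n : ℕ, 2 ≤ m → 2 ≤ n →
      IsGreatest (Sizes (ZMod n) m n)
        (if m = 2 then n.minFac - 1 else if n.minFac = 2 then m - 1 else max m n.minFac + 1)) :=
  ⟨fun _ _ _ _ _ => sizes_iff rfl, fun _ _ _ _ _ hm hq hc => isGreatest_value hm rfl hq hc,
    fun _ _ hm hp => covered_prime hm hp, fun _ _ hm hn => isGreatest_zmod hm hn⟩

end Pool.Agent.Results.MP_c7a479_co.LinearSets
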